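import Pool.Agent.Lib.H85TF.P1

/-!
# H50TF, file Ex: the exchange lemma for sets covered by pairwise disjoint cycles of length at least four

`NT F`: the edge set `F` contains no triangle. `Cov4 E A`: some subset `F` of the edge set `E`, in which every
vertex has degree `0` or `2` and which contains no triangle, has degree `2` at all the vertices of `A`.
THEOREM `exch4`: if `A + b` and `A + d` are covered in this sense and there is a path of `E` from `b` to `d` for no
inner vertex `r` of which `A + r` is covered, then `A + b + d` is covered. Proof: the walk of `H85TF.walk` from `F₁`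
(which covers `A + b`) towards `F₂` (which covers `A + d`), in which the edge to be added at the active vertex is
chosen such that no triangle arises; if the path is an edge `bd` and the end of the walk is `b w d`, then `d` is
inserted in the edge `bw` of `F₁`.
-/

set_option autoImplicit false

namespace H50TF

open Finset H85TF

variable {V : Type*} [DecidableEq V]

/-- `F` contains no triangle. -/
def NT (F : Finset (Sym2 V)) : Prop := ∀ x y z : V, s(x, y) ∈ F → s(y, z) ∈ F → s(x, z) ∉ F

/-- `A` is covered by pairwise disjoint cycles of `E`, all of length at least four. -/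
def Cov4 (E : Finset (Sym2 V)) (A : Finset V) : Prop :=
  ∃ F ⊆ E, (∀ v, dg F v = 0 ∨ dg F v = 2) ∧ NT F ∧ ∀ v ∈ A, dg F v = 2

theorem nt_sub {F F' : Finset (Sym2 V)} (h : F' ⊆ F) (hF : NT F) : NT F' :=
  fun x y z h1 h2 h3 => hF x y z (h h1) (h h2) (h h3)

theorem nt_of_insert {F F' : Finset (Sym2 V)} {a x : V} (h : NT F) (hs : F' ⊆ insert s(a, x) F)
    (hw : ∀ w, s(a, w) ∈ F' → s(x, w) ∈ F' → False) : NT F' := by
  intro p q r h1 h2 h3
  have sw : ∀ {u v : V}, s(u, v) ∈ F' → s(v, u) ∈ F' := fun {u v} huv => by rwa [Sym2.eq_swap]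
  have main : ∀ u v w : V, s(u, v) = s(a, x) → s(u, w) ∈ F' → s(v, w) ∈ F' → False := by
    intro u v w huv h4 h5
    rw [Sym2.eq_iff] at huv
    rcases huv with ⟨rfl, rfl⟩ | ⟨rfl, rfl⟩
    · exact hw w h4 h5
    · exact hw w h5 h4
  rcases mem_insert.1 (hs h1) with e1 | e1
  · exact main p q r e1 h3 h2
  rcases mem_insert.1 (hs h2) with e2 | e2
  · exact main q r p e2 (sw h1) (sw h3)
  rcases mem_insert.1 (hs h3) with e3 | e3
  · exact main p r q e3 h1 (sw h2)
  exact h p q r e1 e2 e3

theorem one_nbr {F : Finset (Sym2 V)} {a : V} (h : dg F a = 1) :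
    ∃ w, s(a, w) ∈ F ∧ ∀ w', s(a, w') ∈ F → w' = w := by
  unfold dg at h
  rw [card_eq_one] at h
  obtain ⟨e, he⟩ := h
  have h1 : e ∈ F.filter fun e => a ∈ e := by rw [he]; exact mem_singleton_self _
  rw [mem_filter] at h1
  obtain ⟨w, rfl⟩ := h1.2
  refine ⟨w, h1.1, fun w' hw' => ?_⟩
  have h2 : s(a, w') ∈ F.filter fun e => a ∈ e := mem_filter.2 ⟨hw', by simp⟩
  rw [he, mem_singleton] at h2
  exact Sym2.congr_right.1 h2

theorem two_nbr {F : Finset (Sym2 V)} {w a x y : V} (h : dg F w ≤ 2) (ha : s(w, a) ∈ F)
    (hx : s(w, x) ∈ F) (hax : a ≠ x) (hy : s(w, y) ∈ F) : y = a ∨ y = x := by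
  by_contra hcon
  push Not at hcon
  have h1 : ({s(w, a), s(w, x), s(w, y)} : Finset (Sym2 V)) ⊆ F.filter fun e => w ∈ e := by
    intro e he
    simp only [mem_insert, mem_singleton] at he
    rcases he with rfl | rfl | rfl
    · exact mem_filter.2 ⟨ha, by simp⟩
    · exact mem_filter.2 ⟨hx, by simp⟩
    · exact mem_filter.2 ⟨hy, by simp⟩
  have h2 : ({s(w, a), s(w, x), s(w, y)} : Finset (Sym2 V)).card = 3 := by
    rw [card_eq_three]
    refine ⟨_, _, _, ?_, ?_, ?_, rfl⟩
    · exact fun e => hax (Sym2.congr_right.1 e)
    · exact fun e => hcon.1 (Sym2.congr_right.1 e).symm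
    · exact fun e => hcon.2 (Sym2.congr_right.1 e).symm
  have h3 := card_le_card h1
  unfold dg at h
  omega

theorem dg_single {a x : V} : dg ({s(a, x)} : Finset (Sym2 V)) a = 1 := by
  unfold dg
  rw [filter_singleton, if_pos (by simp), card_singleton]

/-- The choice of the new edge at the active vertex. -/
theorem choice {F F₂ : Finset (Sym2 V)} (hF2 : ∀ e ∈ F₂, ¬ e.IsDiag) {a w : V} (hw : s(a, w) ∈ F)
    (hw1 : ∀ w', s(a, w') ∈ F → w' = w) (ha : dg F a = 1) (hw2 : dg F w ≤ 2) (ha2 : dg F₂ a = 2)
    (hT2 : NT F₂) :
    ∃ x, s(a, x) ∈ F₂ ∧ s(a, x) ∉ F ∧ (s(x, w) ∈ F → s(x, w) ∉ F₂) := by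
  obtain ⟨x, hx2, hx⟩ := exists_edge (F := F₂) (F' := F) (a := a) (by omega)
  by_cases hc : s(x, w) ∈ F → s(x, w) ∉ F₂
  · exact ⟨x, hx2, hx, hc⟩
  push Not at hc
  obtain ⟨hc1, hc2⟩ := hc
  have haw : s(a, w) ∉ F₂ := hT2 a x w hx2 hc2
  obtain ⟨y, hy2, hyn⟩ := exists_edge (F := F₂) (F' := {s(a, x)}) (a := a)
    (by rw [dg_single]; omega)
  have hyx : y ≠ x := fun e => hyn (by rw [e]; exact mem_singleton_self _)
  have hyw : y ≠ w := fun e => haw (e ▸ hy2)
  have hax : a ≠ x := fun e => hF2 _ hx2 (by simpa using e)
  have hay : a ≠ y := fun e => hF2 _ hy2 (by simpa using e)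
  refine ⟨y, hy2, fun h => hyw (hw1 y h), fun h => ?_⟩
  exfalso
  rcases two_nbr hw2 (a := a) (x := x) (y := y) (by rwa [Sym2.eq_swap]) (by rwa [Sym2.eq_swap]) hax
    (by rwa [Sym2.eq_swap]) with h1 | h1
  · exact hay h1.symm
  · exact hyx h1

/-- Adding a path whose inner vertices have degree `0`. -/
theorem addPath4 {E : Finset (Sym2 V)} (hE : ∀ e ∈ E, ¬ e.IsDiag) {d : V} :
    ∀ {x : V} (p : (SimpleGraph.fromEdgeSet (E : Set (Sym2 V))).Walk x d), p.IsPath →
      ∀ F : Finset (Sym2 V), F ⊆ E → NT F → x ≠ d → s(x, d) ∉ F →
      (s(x, d) ∈ E → ∀ w, s(x, w) ∈ F → s(d, w) ∉ F) → dg F x = 1 → dg F d = 1 →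
      (∀ v, v ≠ x → v ≠ d → dg F v = 0 ∨ dg F v = 2) →
      (∀ r ∈ p.support, r ≠ x → r ≠ d → dg F r = 0) →
      ∃ F' ⊆ E, (∀ v, dg F' v = 0 ∨ dg F' v = 2) ∧ NT F' ∧ dg F' x = 2 ∧ dg F' d = 2 ∧
        ∀ v, dg F v = 2 → dg F' v = 2 := by
  intro x p
  induction p with
  | nil => intro _ F _ _ h; exact absurd rfl h
  | @cons x y d h q ih =>
    intro hp F hF hT hxd hne hcn hx hd hdeg hin
    rw [SimpleGraph.fromEdgeSet_adj] at h
    obtain ⟨hxy, hxy'⟩ := h
    have hxyE : s(x, y) ∈ E := by exact_mod_cast hxy
    rw [SimpleGraph.Walk.cons_isPath_iff] at hp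
    have hins : insert s(x, y) F ⊆ E := insert_subset hxyE hF
    by_cases hyd : y = d
    · subst hyd
      have key := dg_insert hne
      refine ⟨insert s(x, y) F, hins, ?_, ?_, ?_, ?_, ?_⟩
      · intro v
        rw [key v]
        by_cases h1 : v = x
        · subst h1; simp [hx]
        · by_cases h2 : v = y
          · subst h2; simp [hd]
          · simpa [h1, h2] using hdeg v h1 h2
      · refine nt_of_insert hT (Subset.refl _) fun w h1 h2 => ?_
        rcases mem_insert.1 h1 with h3 | h3
        · have h4 : w = y := Sym2.congr_right.1 h3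
          exact hE _ (hins h2) (by simpa using h4.symm)
        · rcases mem_insert.1 h2 with h5 | h5
          · rw [Sym2.eq_swap, Sym2.congr_left] at h5
            exact hE _ (hins h1) (by simpa using h5.symm)
          · exact hcn hxyE w h3 h5
      · rw [key x]; simp [hx]
      · rw [key y]; simp [hd]
      · intro v hv
        rw [key v]
        have h1 : v ≠ x := fun e => by subst e; omega
        have h2 : v ≠ y := fun e => by subst e; omega
        simpa [h1, h2] using hv
    · have hy0 : dg F y = 0 := hin y (by simp) (Ne.symm hxy') hyd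
      have hnF : s(x, y) ∉ F := fun h' => by
        have := dg_pos' h'
        omega
      have key := dg_insert hnF
      have hyF : ∀ w, s(y, w) ∈ insert s(x, y) F → w = x := by
        intro w hw
        rcases mem_insert.1 hw with h1 | h1
        · rw [Sym2.eq_swap, Sym2.congr_left] at h1
          exact h1
        · have := dg_pos h1
          omega
      obtain ⟨F', hF', h1, hT', h2, h3, h4⟩ := ih hp.1 (insert s(x, y) F) hins
        (nt_of_insert hT (Subset.refl _) fun w h1 h2 => by
          have h3 := hyF w h2
          exact hE _ (hins h1) (by simpa using h3.symm)) hyd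
        (by
          intro h'
          exact hxd (hyF d h').symm)
        (by
          intro _ w hw hw'
          have h5 := hyF w hw
          subst h5
          rcases mem_insert.1 hw' with h6 | h6
          · rw [Sym2.eq_swap, Sym2.congr_right] at h6
            exact hyd h6.symm
          · rw [Sym2.eq_swap] at h6
            exact hne h6)
        (by rw [key y]; simp [hy0])
        (by
          rw [key d]
          have h1 : d ≠ x := Ne.symm hxd
          have h2 : d ≠ y := Ne.symm hyd
          simpa [h1, h2] using hd)
        (by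
          intro v hv1 hv2
          rw [key v]
          by_cases h1 : v = x
          · subst h1; simp [hx]
          · simpa [h1, hv1] using hdeg v h1 hv2)
        (by
          intro r hr hr1 hr2
          have h1 : r ≠ x := fun e => hp.2 (e ▸ hr)
          rw [key r]
          have := hin r (by simp [hr]) h1 hr2
          simpa [h1, hr1] using this)
      refine ⟨F', hF', h1, hT', h4 x (by rw [key x]; simp [hx]), h3, fun v hv => h4 v ?_⟩
      rw [key v]
      have h5 : v ≠ x := fun e => by subst e; omega
      have h6 : v ≠ y := fun e => by subst e; omega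
      simpa [h5, h6] using hv

/-- The walk from `F₁` towards `F₂`. The active vertex `a` has degree `1`, or it has degree `3` and an edge of
`F - F₂` at `a` can be removed such that no triangle is left. -/
theorem walk4 {E F₁ F₂ : Finset (Sym2 V)} (hE : ∀ e ∈ E, ¬ e.IsDiag) (h1 : F₁ ⊆ E) (h2 : F₂ ⊆ E)
    {A : Finset V} {b d : V} (hbd : b ≠ d) (hbA : b ∉ A) (hdA : d ∉ A)
    (hd1 : dg F₁ d = 0) (hb2 : dg F₂ b = 0) (hdeg2 : ∀ v, dg F₂ v = 0 ∨ dg F₂ v = 2)
    (hA2 : ∀ v ∈ A, dg F₂ v = 2) (hT2 : NT F₂) :
    ∀ (k : ℕ) (F : Finset (Sym2 V)) (a : V), (symmDiff F F₂).card < k → F ⊆ F₁ ∪ F₂ →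
      a ≠ b → a ≠ d → dg F d = 1 → dg F b = 2 →
      ((dg F a = 1 ∧ NT F) ∨
        (dg F a = 3 ∧ ∃ u, s(a, u) ∈ F ∧ s(a, u) ∉ F₂ ∧ NT (F.erase s(a, u)))) →
      (∀ v, v ≠ a → v ≠ d → dg F v = 0 ∨ dg F v = 2) → (∀ v ∈ A, v ≠ a → dg F v = 2) →
      ∃ F' ⊆ F₁ ∪ F₂, NT F' ∧ (∀ v ∈ A, dg F' v = 2) ∧
        (((∀ v, dg F' v = 0 ∨ dg F' v = 2) ∧ dg F' b = 2 ∧ dg F' d = 2) ∨
          (dg F' b = 1 ∧ dg F' d = 1 ∧ ∀ v, v ≠ b → v ≠ d → dg F' v = 0 ∨ dg F' v = 2)) := by
  intro k
  induction k with
  | zero => intro F a h; omega
  | succ k ih =>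
    intro F a hk hF hab had hd hb ha hdeg hA
    have hEu : ∀ {x y : V}, s(x, y) ∈ F₁ ∪ F₂ → x ≠ y := by
      intro x y hxy e
      refine hE s(x, y) ((union_subset h1 h2) hxy) ?_
      simpa using e
    -- the edges at `d` are in `F₂`
    have hdF : ∀ u, s(d, u) ∈ F → s(d, u) ∈ F₂ := by
      intro u hu
      rcases mem_union.1 (hF hu) with h3 | h3
      · have := dg_pos h3
        omega
      · exact h3
    -- removing an edge
    have rem : ∀ u, s(a, u) ∈ F → s(a, u) ∉ F₂ → NT (F.erase s(a, u)) →
        (dg F a = 1 ∨ dg F a = 3) → (dg F a = 1 → dg F₂ a = 0) →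
        ∃ F' ⊆ F₁ ∪ F₂, NT F' ∧ (∀ v ∈ A, dg F' v = 2) ∧
        (((∀ v, dg F' v = 0 ∨ dg F' v = 2) ∧ dg F' b = 2 ∧ dg F' d = 2) ∨
          (dg F' b = 1 ∧ dg F' d = 1 ∧ ∀ v, v ≠ b → v ≠ d → dg F' v = 0 ∨ dg F' v = 2)) := by
      intro u hu hu2 hTe ha13 hz
      have hau : a ≠ u := hEu (hF hu)
      have hud : u ≠ d := by
        intro e
        subst e
        rcases mem_union.1 (hF hu) with h3 | h3
        · have := dg_pos' h3
          omega
        · exact hu2 h3
      have key := dg_erase hu
      have kd := key d
      rw [if_neg (by push Not; exact ⟨Ne.symm had, Ne.symm hud⟩)] at kd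
      have ka := key a
      rw [if_pos (Or.inl rfl)] at ka
      have ku := key u
      rw [if_pos (Or.inr rfl)] at ku
      have hF' : F.erase s(a, u) ⊆ F₁ ∪ F₂ := (erase_subset _ _).trans hF
      have haA : a ∈ A → dg (F.erase s(a, u)) a = 2 := by
        intro h3
        have h4 := hA2 a h3
        rcases ha13 with h5 | h5
        · have := hz h5
          omega
        · omega
      have ha' : dg (F.erase s(a, u)) a = 0 ∨ dg (F.erase s(a, u)) a = 2 := by omega
      by_cases hub : u = b
      · subst hub
        refine ⟨F.erase s(a, u), hF', hTe, ?_, Or.inr ⟨by omega, by omega, ?_⟩⟩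
        · intro v hv
          by_cases h3 : v = a
          · subst h3; exact haA hv
          · have h4 : v ≠ u := fun e => hbA (e ▸ hv)
            have h5 := key v
            rw [if_neg (by push Not; exact ⟨h3, h4⟩)] at h5
            have := hA v hv h3
            omega
        · intro v hv1 hv2
          by_cases h3 : v = a
          · subst h3; exact ha'
          · have h5 := key v
            rw [if_neg (by push Not; exact ⟨h3, hv1⟩)] at h5
            have := hdeg v h3 hv2
            omega
      · refine ih (F.erase s(a, u)) u ?_ hF' hub hud (by omega) ?_ ?_ ?_ ?_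
        · have h3 : symmDiff (F.erase s(a, u)) F₂ ⊂ symmDiff F F₂ := by
            rw [ssubset_iff_of_subset]
            · refine ⟨s(a, u), ?_, ?_⟩
              · rw [mem_symmDiff]; exact Or.inl ⟨hu, hu2⟩
              · rw [mem_symmDiff]; rintro (h | h)
                · exact notMem_erase _ _ h.1
                · exact hu2 h.1
            · intro e he
              rw [mem_symmDiff] at he ⊢
              rcases he with he | he
              · exact Or.inl ⟨mem_of_mem_erase he.1, he.2⟩
              · refine Or.inr ⟨he.1, fun h4 => he.2 (mem_erase.2 ⟨?_, h4⟩)⟩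
                rintro rfl
                exact hu2 he.1
          have := card_lt_card h3
          omega
        · have h5 := key b
          rw [if_neg (by push Not; exact ⟨Ne.symm hab, Ne.symm hub⟩)] at h5
          omega
        · have := hdeg u (Ne.symm hau) hud
          exact Or.inl ⟨by omega, hTe⟩
        · intro v hv1 hv2
          by_cases h3 : v = a
          · subst h3; exact ha'
          · have h5 := key v
            rw [if_neg (by push Not; exact ⟨h3, hv1⟩)] at h5
            have := hdeg v h3 hv2
            omega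
        · intro v hv hv1
          by_cases h3 : v = a
          · subst h3; exact haA hv
          · have h5 := key v
            rw [if_neg (by push Not; exact ⟨h3, hv1⟩)] at h5
            have := hA v hv h3
            omega
    rcases ha with ⟨ha, hT⟩ | ⟨ha, u, hu, hu2, hTe⟩
    swap
    · have := hdeg2 a
      exact rem u hu hu2 hTe (Or.inr ha) (fun h => by omega)
    obtain ⟨w, hw, hw1⟩ := one_nbr ha
    rcases hdeg2 a with h0 | h0
    · refine rem w hw (fun h => ?_) (nt_sub (erase_subset _ _) hT) (Or.inl ha) (fun _ => h0)
      have := dg_pos h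
      omega
    · -- adding an edge
      have haw : a ≠ w := hEu (hF hw)
      have hwd2 : dg F w ≤ 2 := by
        by_cases h3 : w = d
        · subst h3; omega
        · have := hdeg w (Ne.symm haw) h3
          omega
      obtain ⟨u, hu2, hu, huw⟩ := choice (fun e he => hE e (h2 he)) hw hw1 ha hwd2 h0 hT2
      have hau : a ≠ u := hEu (mem_union_right _ hu2)
      have hub : u ≠ b := by
        rintro rfl
        have := dg_pos' hu2
        omega
      have key := dg_insert hu
      have ka := key a
      rw [if_pos (Or.inl rfl)] at ka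
      have ku := key u
      rw [if_pos (Or.inr rfl)] at ku
      have kb := key b
      rw [if_neg (by push Not; exact ⟨Ne.symm hab, Ne.symm hub⟩)] at kb
      have hF' : insert s(a, u) F ⊆ F₁ ∪ F₂ := insert_subset (mem_union_right _ hu2) hF
      -- a triangle through the new edge has its third vertex in `w`
      have htri : ∀ G : Finset (Sym2 V), G ⊆ insert s(a, u) F → (s(u, w) ∈ F → s(u, w) ∉ G) →
          NT G := by
        intro G hG hGw
        refine nt_of_insert hT hG fun z h3 h4 => ?_
        have hz1 : z ≠ u := (hEu (hF' (hG h4))).symm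
        have hz2 : z ≠ a := (hEu (hF' (hG h3))).symm
        have h5 : z = w := by
          rcases mem_insert.1 (hG h3) with h6 | h6
          · exact absurd (Sym2.congr_right.1 h6) hz1
          · exact hw1 z h6
        subst h5
        rcases mem_insert.1 (hG h4) with h6 | h6
        · rw [Sym2.eq_swap, Sym2.congr_left] at h6
          exact hz2 h6
        · exact hGw h6 h4
      by_cases hud : u = d
      · subst hud
        refine ⟨insert s(a, u) F, hF', ?_, ?_, Or.inl ⟨?_, by omega, by omega⟩⟩
        · exact htri _ (Subset.refl _) fun h3 => absurd (hdF w h3) (huw h3)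
        · intro v hv
          by_cases h3 : v = a
          · subst h3; omega
          · have h4 : v ≠ u := fun e => hdA (e ▸ hv)
            have h5 := key v
            rw [if_neg (by push Not; exact ⟨h3, h4⟩)] at h5
            have := hA v hv h3
            omega
        · intro v
          by_cases h3 : v = a
          · subst h3; omega
          · by_cases h4 : v = u
            · subst h4; omega
            · have h5 := key v
              rw [if_neg (by push Not; exact ⟨h3, h4⟩)] at h5
              have := hdeg v h3 h4
              omega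
      · have kd := key d
        rw [if_neg (by push Not; exact ⟨Ne.symm had, Ne.symm hud⟩)] at kd
        refine ih (insert s(a, u) F) u ?_ hF' hub hud (by omega) (by omega) ?_ ?_ ?_
        · have h3 : symmDiff (insert s(a, u) F) F₂ ⊂ symmDiff F F₂ := by
            rw [ssubset_iff_of_subset]
            · refine ⟨s(a, u), ?_, ?_⟩
              · rw [mem_symmDiff]; exact Or.inr ⟨hu2, hu⟩
              · rw [mem_symmDiff]; rintro (h | h)
                · exact h.2 hu2
                · exact h.2 (mem_insert_self _ _)
            · intro e he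
              rw [mem_symmDiff] at he ⊢
              rcases he with he | he
              · rcases mem_insert.1 he.1 with h4 | h4
                · exact absurd (h4 ▸ hu2) he.2
                · exact Or.inl ⟨h4, he.2⟩
              · exact Or.inr ⟨he.1, fun h4 => he.2 (mem_insert_of_mem h4)⟩
          have := card_lt_card h3
          omega
        · rcases hdeg u (Ne.symm hau) hud with h3 | h3
          · refine Or.inl ⟨by omega, htri _ (Subset.refl _) fun h4 => ?_⟩
            have := dg_pos h4
            omega
          · refine Or.inr ⟨by omega, ?_⟩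
            by_cases h4 : s(u, w) ∈ F
            · exact ⟨w, mem_insert_of_mem h4, huw h4,
                htri _ (erase_subset _ _) fun _ => notMem_erase _ _⟩
            · obtain ⟨z, hz, hz2⟩ := exists_edge (F := insert s(a, u) F) (F' := F₂) (a := u)
                (by have := hdeg2 u; omega)
              exact ⟨z, hz, hz2, htri _ (erase_subset _ _) fun h5 => absurd h5 h4⟩
        · intro v hv1 hv2
          by_cases h3 : v = a
          · subst h3; omega
          · have h5 := key v
            rw [if_neg (by push Not; exact ⟨h3, hv1⟩)] at h5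
            have := hdeg v h3 hv2
            omega
        · intro v hv hv1
          by_cases h3 : v = a
          · subst h3; omega
          · have h5 := key v
            rw [if_neg (by push Not; exact ⟨h3, hv1⟩)] at h5
            have := hA v hv h3
            omega

/-- THE EXCHANGE LEMMA for cycles of length at least four. -/
theorem exch4 {E : Finset (Sym2 V)} (hE : ∀ e ∈ E, ¬ e.IsDiag) {A : Finset V} {b d : V}
    (hb : Cov4 E (insert b A)) (hd : Cov4 E (insert d A))
    (p : (SimpleGraph.fromEdgeSet (E : Set (Sym2 V))).Walk b d) (hp : p.IsPath)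
    (hin : ∀ r ∈ p.support, r ≠ b → r ≠ d → ¬ Cov4 E (insert r A)) :
    Cov4 E (insert b (insert d A)) := by
  obtain ⟨F₁, h1, hdeg1, hT1, hA1⟩ := hb
  obtain ⟨F₂, h2, hdeg2, hT2, hA2⟩ := hd
  have hb1 : dg F₁ b = 2 := hA1 b (mem_insert_self _ _)
  have hd2 : dg F₂ d = 2 := hA2 d (mem_insert_self _ _)
  rcases hdeg1 d with hd1 | hd1
  swap
  · refine ⟨F₁, h1, hdeg1, hT1, fun v hv => ?_⟩
    rcases mem_insert.1 hv with rfl | hv
    · exact hb1
    · rcases mem_insert.1 hv with rfl | hv
      · exact hd1
      · exact hA1 v (mem_insert_of_mem hv)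
  rcases hdeg2 b with hb2 | hb2
  swap
  · refine ⟨F₂, h2, hdeg2, hT2, fun v hv => ?_⟩
    rcases mem_insert.1 hv with rfl | hv
    · exact hb2
    · exact hA2 v hv
  have hbd : b ≠ d := by rintro rfl; omega
  have hbA : b ∉ A := fun h => by
    have := hA2 b (mem_insert_of_mem h)
    omega
  have hdA : d ∉ A := fun h => by
    have := hA1 d (mem_insert_of_mem h)
    omega
  obtain ⟨u, hu2, hu⟩ := exists_edge (F := F₂) (F' := F₁) (a := d) (by omega)
  have hdu : d ≠ u := fun e => hE s(d, u) (h2 hu2) (by simpa using e)
  have hub : u ≠ b := by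
    rintro rfl
    have := dg_pos' hu2
    omega
  have key := dg_insert hu
  have kd := key d
  rw [if_pos (Or.inl rfl)] at kd
  have ku := key u
  rw [if_pos (Or.inr rfl)] at ku
  have kb := key b
  rw [if_neg (by push Not; exact ⟨hbd, Ne.symm hub⟩)] at kb
  have hT0 : NT (insert s(d, u) F₁) := by
    refine nt_of_insert hT1 (Subset.refl _) fun w h3 h4 => ?_
    rcases mem_insert.1 h3 with h5 | h5
    · have h6 : w = u := Sym2.congr_right.1 h5
      subst h6
      rcases mem_insert.1 h4 with h7 | h7
      · rw [Sym2.congr_left] at h7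
        exact hdu h7.symm
      · exact hE _ (h1 h7) (by simp)
    · have := dg_pos h5
      omega
  obtain ⟨F', hF', hT', hA', h3⟩ := walk4 hE h1 h2 hbd hbA hdA hd1 hb2 hdeg2
    (fun v hv => hA2 v (mem_insert_of_mem hv)) hT2 _ (insert s(d, u) F₁) u (Nat.lt_succ_self _)
    (insert_subset (mem_union_right _ hu2) subset_union_left) hub (Ne.symm hdu) (by omega)
    (by omega)
    (by
      rcases hdeg1 u with h3 | h3
      · exact Or.inl ⟨by omega, hT0⟩
      · obtain ⟨z, hz, hz2⟩ := exists_edge (F := insert s(d, u) F₁) (F' := F₂) (a := u)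
          (by have := hdeg2 u; omega)
        exact Or.inr ⟨by omega, z, hz, hz2, nt_sub (erase_subset _ _) hT0⟩)
    (by
      intro v hv1 hv2
      have h5 := key v
      rw [if_neg (by push Not; exact ⟨hv2, hv1⟩)] at h5
      have := hdeg1 v
      omega)
    (by
      intro v hv hv1
      have hv2 : v ≠ d := fun e => hdA (e ▸ hv)
      have h5 := key v
      rw [if_neg (by push Not; exact ⟨hv2, hv1⟩)] at h5
      have := hA1 v (mem_insert_of_mem hv)
      omega)
  rcases h3 with ⟨h4, h5, h6⟩ | ⟨h4, h5, h6⟩
  · refine ⟨F', hF'.trans (union_subset h1 h2), h4, hT', fun v hv => ?_⟩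
    rcases mem_insert.1 hv with rfl | hv
    · exact h5
    · rcases mem_insert.1 hv with rfl | hv
      · exact h6
      · exact hA' v hv
  by_cases hI : s(b, d) ∈ E ∧ ∃ w, s(b, w) ∈ F' ∧ s(d, w) ∈ F'
  · -- insert `d` in the edge `bw` of `F₁`
    obtain ⟨hbdE, w, hbw, hdw⟩ := hI
    have hbw1 : s(b, w) ∈ F₁ := by
      rcases mem_union.1 (hF' hbw) with h | h
      · exact h
      · have := dg_pos h
        omega
    have hdwE : s(d, w) ∈ E := (union_subset h1 h2) (hF' hdw)
    have hwb : w ≠ b := fun e => hE _ (h1 hbw1) (by simpa using e.symm)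
    have hwd : w ≠ d := fun e => hE _ hdwE (by simpa using e.symm)
    have hw1 : dg F₁ w = 2 := by
      have := dg_pos' hbw1
      have := hdeg1 w
      omega
    have hdn : ∀ x, s(d, x) ∉ F₁ := fun x h => by
      have := dg_pos h
      omega
    have k1 := dg_erase hbw1
    have hn2 : s(w, d) ∉ F₁.erase s(b, w) := fun h => hdn w (by
      rw [Sym2.eq_swap]; exact mem_of_mem_erase h)
    have k2 := dg_insert hn2
    have hn3 : s(d, b) ∉ insert s(w, d) (F₁.erase s(b, w)) := by
      intro h
      rcases mem_insert.1 h with h | h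
      · rw [Sym2.eq_swap, Sym2.congr_left] at h
        exact hwb h.symm
      · exact hdn b (mem_of_mem_erase h)
    have k3 := dg_insert hn3
    have hT3 : NT (insert s(w, d) (F₁.erase s(b, w))) := by
      refine nt_of_insert (nt_sub (erase_subset _ _) hT1) (Subset.refl _) fun z h7 h8 => ?_
      rcases mem_insert.1 h8 with h9 | h9
      · rw [Sym2.eq_swap, Sym2.congr_left] at h9
        subst h9
        rcases mem_insert.1 h7 with h10 | h10
        · rw [Sym2.congr_right] at h10
          exact hwd h10
        · exact hE _ (h1 (mem_of_mem_erase h10)) (by simp)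
      · exact hdn z (mem_of_mem_erase h9)
    have hT4 : NT (insert s(d, b) (insert s(w, d) (F₁.erase s(b, w)))) := by
      refine nt_of_insert hT3 (Subset.refl _) fun z h7 h8 => ?_
      have hz : z = b ∨ z = w := by
        rcases mem_insert.1 h7 with h9 | h9
        · exact Or.inl (Sym2.congr_right.1 h9)
        · rcases mem_insert.1 h9 with h10 | h10
          · rw [Sym2.eq_swap, Sym2.congr_left] at h10
            exact Or.inr h10
          · exact absurd (mem_of_mem_erase h10) (hdn z)
      rcases hz with rfl | rfl
      · rcases mem_insert.1 h8 with h9 | h9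
        · rw [Sym2.congr_left] at h9
          exact hbd h9
        · rcases mem_insert.1 h9 with h10 | h10
          · rw [Sym2.eq_iff] at h10
            rcases h10 with h10 | h10
            · exact hbd h10.2
            · exact hbd h10.1
          · exact hE _ (h1 (mem_of_mem_erase h10)) (by simp)
      · rcases mem_insert.1 h8 with h9 | h9
        · rw [Sym2.eq_swap, Sym2.congr_left] at h9
          exact hwd h9
        · rcases mem_insert.1 h9 with h10 | h10
          · rw [Sym2.eq_iff] at h10
            rcases h10 with h10 | h10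
            · exact hwb h10.1.symm
            · exact hbd h10.1
          · exact notMem_erase _ _ h10
    refine ⟨insert s(d, b) (insert s(w, d) (F₁.erase s(b, w))), ?_, ?_, hT4, ?_⟩
    · refine insert_subset (by rw [Sym2.eq_swap]; exact hbdE) (insert_subset
        (by rw [Sym2.eq_swap]; exact hdwE) ((erase_subset _ _).trans h1))
    · intro v
      have hv := hdeg1 v
      rw [k3 v, k2 v]
      have hv1 := k1 v
      by_cases h7 : v = b
      · subst h7
        simp only [true_or, or_true, if_true, hbd, Ne.symm hwb, or_self, if_false] at hv1 ⊢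
        omega
      · by_cases h8 : v = w
        · subst h8
          simp only [true_or, or_true, if_true, hwd, h7, or_self, if_false] at hv1 ⊢
          omega
        · by_cases h9 : v = d
          · subst h9
            simp only [true_or, or_true, if_true, h7, h8, or_self, if_false] at hv1 ⊢
            omega
          · simp only [h7, h8, h9, or_self, if_false] at hv1 ⊢
            omega
    · intro v hv
      have hv2 : v = d ∨ dg F₁ v = 2 := by
        rcases mem_insert.1 hv with rfl | hv
        · exact Or.inr hb1
        · rcases mem_insert.1 hv with rfl | hv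
          · exact Or.inl rfl
          · exact Or.inr (hA1 v (mem_insert_of_mem hv))
      rw [k3 v, k2 v]
      have hv1 := k1 v
      by_cases h7 : v = b
      · subst h7
        simp only [true_or, or_true, if_true, hbd, Ne.symm hwb, or_self, if_false] at hv1 ⊢
        omega
      · by_cases h8 : v = w
        · subst h8
          simp only [true_or, or_true, if_true, hwd, h7, or_self, if_false] at hv1 ⊢
          omega
        · by_cases h9 : v = d
          · subst h9
            simp only [true_or, or_true, if_true, h7, h8, or_self, if_false] at hv1 ⊢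
            omega
          · simp only [h7, h8, h9, or_self, if_false] at hv1 ⊢
            rcases hv2 with h10 | h10
            · exact absurd h10 h9
            · omega
  · push Not at hI
    obtain ⟨F'', hF'', h7, hT7, h8, h9, h10⟩ := addPath4 hE p hp F' (hF'.trans (union_subset h1 h2))
      hT' hbd
      (by
        intro h
        rcases mem_union.1 (hF' h) with h | h
        · have := dg_pos' h
          omega
        · have := dg_pos h
          omega) (fun h w hw => hI h w hw) h4 h5 h6
      (by
        intro r hr hr1 hr2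
        have hn := hin r hr hr1 hr2
        refine dg_union_zero hF' ?_ ?_
        · rcases hdeg1 r with h | h
          · exact h
          · refine absurd ⟨F₁, h1, hdeg1, hT1, fun v hv => ?_⟩ hn
            rcases mem_insert.1 hv with rfl | hv
            · exact h
            · exact hA1 v (mem_insert_of_mem hv)
        · rcases hdeg2 r with h | h
          · exact h
          · refine absurd ⟨F₂, h2, hdeg2, hT2, fun v hv => ?_⟩ hn
            rcases mem_insert.1 hv with rfl | hv
            · exact h
            · exact hA2 v (mem_insert_of_mem hv))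
    refine ⟨F'', hF'', h7, hT7, fun v hv => ?_⟩
    rcases mem_insert.1 hv with rfl | hv
    · exact h8
    · rcases mem_insert.1 hv with rfl | hv
      · exact h9
      · exact h10 v (hA' v hv)

end H50TF
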