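import Pool.Agent.Lib.H50TF.Ex
import Pool.Agent.Lib.H85TF.P2

/-!
# H50TF, file Vt: the exchange lemma inside a connected set; every vertex of a 2-connected graph with at least four
vertices is on a cycle of length at least four
-/

set_option autoImplicit false

namespace H50TF

open Finset H98M H85TF

variable {V : Type*} [DecidableEq V]

theorem cov4_sub {E : Finset (Sym2 V)} {A B : Finset V} (h : A ⊆ B) (hB : Cov4 E B) : Cov4 E A := by
  obtain ⟨F, h1, h2, h3, h4⟩ := hB
  exact ⟨F, h1, h2, h3, fun v hv => h4 v (h hv)⟩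

theorem cov4_edges {E E' : Finset (Sym2 V)} {A : Finset V} (h : E ⊆ E') (hA : Cov4 E A) :
    Cov4 E' A := by
  obtain ⟨F, h1, h2, h3⟩ := hA
  exact ⟨F, h1.trans h, h2, h3⟩

theorem nt_empty : NT (∅ : Finset (Sym2 V)) := fun _ _ _ h => absurd h (notMem_empty _)

theorem cov4_empty (E : Finset (Sym2 V)) : Cov4 E ∅ :=
  ⟨∅, empty_subset _, fun v => Or.inl (by simp [dg]), nt_empty, fun v hv => absurd hv (notMem_empty v)⟩

/-- THE EXCHANGE LEMMA, with a connected set in place of the path. -/
theorem exch4_set {E : Finset (Sym2 V)} (hE : ∀ e ∈ E, ¬ e.IsDiag) {A U : Finset V} {b d : V}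
    (hb : Cov4 E (insert b A)) (hd : Cov4 E (insert d A)) (hbU : b ∈ U) (hdU : d ∈ U)
    (hU : ¬ Disc U E) (hin : ∀ u ∈ U, u ≠ b → u ≠ d → ¬ Cov4 E (insert u A)) :
    Cov4 E (insert b (insert d A)) := by
  obtain ⟨p, hp, hpU⟩ := path_of_not_disc hU hbU hdU
  exact exch4 hE hb hd p hp fun r hr => hin r (hpU r hr)

/-- A path from `y` to `u` which avoids `v` and `w`, closed by `u v w y`. -/
theorem close4 {E : Finset (Sym2 V)} (hE : ∀ e ∈ E, ¬ e.IsDiag) {u v w y : V} (hvu : s(v, u) ∈ E)
    (hvw : s(v, w) ∈ E) (hwy : s(w, y) ∈ E) (huw : u ≠ w) (hyu : y ≠ u) (hyv : y ≠ v)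
    (p : (SimpleGraph.fromEdgeSet (E : Set (Sym2 V))).Walk y u) (hp : p.IsPath)
    (hpv : ∀ r ∈ p.support, r ≠ v ∧ r ≠ w) : Cov4 E {v} := by
  have hvu' : v ≠ u := fun e => hE _ hvu (by simpa using e)
  have hvw' : v ≠ w := fun e => hE _ hvw (by simpa using e)
  have hwy' : w ≠ y := fun e => hE _ hwy (by simpa using e)
  have hn1 : s(v, w) ∉ (∅ : Finset (Sym2 V)) := notMem_empty _
  have hn2 : s(v, u) ∉ insert s(v, w) (∅ : Finset (Sym2 V)) := by
    intro h
    rcases mem_insert.1 h with h | h
    · exact huw (Sym2.congr_right.1 h)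
    · exact notMem_empty _ h
  have hn3 : s(w, y) ∉ insert s(v, u) (insert s(v, w) (∅ : Finset (Sym2 V))) := by
    intro h
    simp only [mem_insert, notMem_empty, or_false, Sym2.eq_iff] at h
    rcases h with (⟨h, -⟩ | ⟨-, h⟩) | (⟨h, -⟩ | ⟨-, h⟩)
    · exact hvw' h.symm
    · exact hyv h
    · exact hvw' h.symm
    · exact hyv h
  obtain ⟨F, hF⟩ : ∃ F, F = insert s(w, y) (insert s(v, u) (insert s(v, w) (∅ : Finset (Sym2 V)))) := ⟨_, rfl⟩
  have key : ∀ x, dg F x = ((if x = v ∨ x = w then 1 else 0) + if x = v ∨ x = u then 1 else 0) +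
      if x = w ∨ x = y then 1 else 0 := by
    intro x
    rw [hF, dg_insert hn3, dg_insert hn2, dg_insert hn1]
    simp [dg]
  have hv2 : dg F v = 2 := by
    rw [key]; simp [hvw', Ne.symm hyv]
  have hFE : F ⊆ E := hF ▸ insert_subset hwy (insert_subset hvu (insert_subset hvw (empty_subset _)))
  have hNT : NT F := by
    rw [hF]
    refine nt_of_insert (a := w) (x := y) (nt_of_insert (a := v) (x := u) (F := insert s(v, w) ∅)
      (F' := insert s(v, u) (insert s(v, w) ∅))
      (nt_of_insert (a := v) (x := w) nt_empty (Subset.refl _) ?_) (Subset.refl _) ?_)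
      (Subset.refl _) ?_
    · intro z h1 h2
      simp only [mem_insert, notMem_empty, or_false, Sym2.eq_iff] at h1 h2
      grind
    · intro z h1 h2
      simp only [mem_insert, notMem_empty, or_false, Sym2.eq_iff] at h1 h2
      grind
    · intro z h1 h2
      simp only [mem_insert, notMem_empty, or_false, Sym2.eq_iff] at h1 h2
      grind
  obtain ⟨F', h1, h2, h3, h4, h5, h6⟩ := addPath4 hE p hp F hFE hNT hyu
    (by
      intro h
      simp only [hF, mem_insert, notMem_empty, or_false, Sym2.eq_iff] at h
      grind)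
    (by
      intro _ z h1 h2
      simp only [hF, mem_insert, notMem_empty, or_false, Sym2.eq_iff] at h1 h2
      grind)
    (by rw [key]; simp [hyv, hyu, Ne.symm hwy'])
    (by rw [key]; simp [Ne.symm hvu', huw, Ne.symm hyu])
    (by
      intro x hx1 hx2
      rw [key]
      by_cases hx : x = v
      · subst hx; simp [hvw', hx1]
      · by_cases hx' : x = w
        · subst hx'; simp [hx, hx2]
        · simp [hx, hx', hx1, hx2])
    (by
      intro r hr hr1 hr2
      obtain ⟨hrv, hrw⟩ := hpv r hr
      rw [key]
      simp [hrv, hr1, hr2, hrw])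
  refine ⟨F', h1, h2, h3, fun x hx => ?_⟩
  rw [mem_singleton.1 hx]
  exact h6 v hv2

/-- Every vertex of a 2-connected graph with at least four vertices is on a cycle of length at least four. -/
theorem cov4_vertex [Fintype V] {E : Finset (Sym2 V)} (hE : ∀ e ∈ E, ¬ e.IsDiag)
    (h4 : 4 ≤ Fintype.card V) (hc : ¬ Disc univ E) (hcut : ∀ z, ¬ Disc (univ.erase z) E) (v : V) :
    Cov4 E {v} := by
  classical
  have sw : ∀ {x y : V}, s(x, y) ∈ E → s(y, x) ∈ E := fun {x y} h => by rwa [Sym2.eq_swap]
  obtain ⟨u, hu⟩ : ∃ u, s(v, u) ∈ E := by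
    by_contra hcon
    push Not at hcon
    refine hc ⟨{v}, univ.erase v, singleton_nonempty v, ?_, ?_, ?_, ?_⟩
    · rw [← card_pos, card_erase_of_mem (mem_univ _), card_univ]
      omega
    · simp
    · ext x
      simp
    · intro x hx y _
      rw [mem_singleton.1 hx]
      exact hcon y
  have huv : v ≠ u := fun e => hE _ hu (by simpa using e)
  obtain ⟨w, hwu, hw⟩ : ∃ w, w ≠ u ∧ s(v, w) ∈ E := by
    by_contra hcon
    push Not at hcon
    refine hcut u ⟨{v}, (univ.erase u).erase v, singleton_nonempty v, ?_, ?_, ?_, ?_⟩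
    · rw [← card_pos, card_erase_of_mem (mem_erase.2 ⟨huv, mem_univ _⟩),
        card_erase_of_mem (mem_univ _), card_univ]
      omega
    · simp
    · ext x
      simp only [mem_union, mem_singleton, mem_erase, mem_univ, and_true]
      constructor
      · rintro (rfl | h)
        · exact huv
        · exact h.2
      · intro h
        by_cases hx : x = v
        · exact Or.inl hx
        · exact Or.inr ⟨hx, h⟩
    · intro x hx y hy
      rw [mem_singleton.1 hx]
      rw [mem_erase, mem_erase] at hy
      exact hcon y hy.2.1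
  by_cases hA : ∃ u w, u ≠ w ∧ s(v, u) ∈ E ∧ s(v, w) ∈ E ∧ s(u, w) ∉ E
  · -- two neighbours which are not adjacent
    clear hwu hw huv hu
    obtain ⟨u, w, huw, hu, hw, hn⟩ := hA
    have huv : v ≠ u := fun e => hE _ hu (by simpa using e)
    have hwv : v ≠ w := fun e => hE _ hw (by simpa using e)
    obtain ⟨p, hp, hpU⟩ := path_of_not_disc (hcut v) (b := u) (d := w)
      (mem_erase.2 ⟨Ne.symm huv, mem_univ _⟩) (mem_erase.2 ⟨Ne.symm hwv, mem_univ _⟩)
    have hn1 : s(v, w) ∉ (∅ : Finset (Sym2 V)) := notMem_empty _
    have hn2 : s(v, u) ∉ insert s(v, w) (∅ : Finset (Sym2 V)) := by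
      intro h
      rcases mem_insert.1 h with h | h
      · exact huw (Sym2.congr_right.1 h)
      · exact notMem_empty _ h
    have key : ∀ x, dg (insert s(v, u) (insert s(v, w) (∅ : Finset (Sym2 V)))) x =
        (if x = v ∨ x = w then 1 else 0) + if x = v ∨ x = u then 1 else 0 := by
      intro x
      rw [dg_insert hn2, dg_insert hn1]
      simp [dg]
    have hv2 : dg (insert s(v, u) (insert s(v, w) (∅ : Finset (Sym2 V)))) v = 2 := by
      rw [key]; simp
    obtain ⟨F', h1, h2, h3, h4, h5, h6⟩ := addPath4 hE p hp (insert s(v, u) (insert s(v, w) ∅))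
      (insert_subset hu (insert_subset hw (empty_subset _)))
      (by
        refine nt_of_insert (a := v) (x := u) (F := insert s(v, w) ∅)
          (nt_of_insert (a := v) (x := w) nt_empty (Subset.refl _) ?_) (Subset.refl _) ?_
        · intro z h1 h2
          simp only [mem_insert, notMem_empty, or_false, Sym2.eq_iff] at h1 h2
          grind
        · intro z h1 h2
          simp only [mem_insert, notMem_empty, or_false, Sym2.eq_iff] at h1 h2
          grind) huw
      (by
        intro h
        simp only [mem_insert, notMem_empty, or_false, Sym2.eq_iff] at h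
        grind)
      (fun h => absurd h hn)
      (by rw [key]; simp [Ne.symm huv, huw])
      (by rw [key]; simp [Ne.symm hwv, Ne.symm huw])
      (by
        intro x hx1 hx2
        rw [key]
        by_cases hx : x = v
        · subst hx; simp
        · simp [hx, hx1, hx2])
      (by
        intro r hr hr1 hr2
        have hrv : r ≠ v := (mem_erase.1 (hpU r hr)).1
        rw [key]
        simp [hrv, hr1, hr2])
    refine ⟨F', h1, h2, h3, fun x hx => ?_⟩
    rw [mem_singleton.1 hx]
    exact h6 v hv2
  push Not at hA
  -- the neighbours of `v` are pairwise adjacent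
  have hwv : v ≠ w := fun e => hE _ hw (by simpa using e)
  by_cases hB : ∃ x, x ≠ u ∧ x ≠ w ∧ s(v, x) ∈ E
  · obtain ⟨x, hxu, hxw, hx⟩ := hB
    have hxv : v ≠ x := fun e => hE _ hx (by simpa using e)
    have h1 : (SimpleGraph.fromEdgeSet (E : Set (Sym2 V))).Adj x u := by
      rw [SimpleGraph.fromEdgeSet_adj]
      exact ⟨by exact_mod_cast hA x u hxu hx hu, hxu⟩
    refine close4 hE hu hw (hA w x (Ne.symm hxw) hw hx) (Ne.symm hwu) hxu (Ne.symm hxv)
      (SimpleGraph.Walk.cons h1 SimpleGraph.Walk.nil) (by simp [hxu]) ?_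
    intro r hr
    have hr' : r = x ∨ r = u := by simpa using hr
    rcases hr' with rfl | rfl
    · exact ⟨Ne.symm hxv, hxw⟩
    · exact ⟨Ne.symm huv, Ne.symm hwu⟩
  · push Not at hB
    -- a neighbour `y` of `w` different from `u` and `v`
    obtain ⟨y, hyu, hyv, hyw, hy⟩ : ∃ y, y ≠ u ∧ y ≠ v ∧ y ≠ w ∧ s(w, y) ∈ E := by
      by_contra hcon
      push Not at hcon
      have hz : ((((univ : Finset V).erase u).erase v).erase w).Nonempty := by
        rw [← card_pos, card_erase_of_mem (by simp [hwu, Ne.symm hwv]),
          card_erase_of_mem (by simp [huv]), card_erase_of_mem (mem_univ _), card_univ]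
        omega
      refine hcut u ⟨{v, w}, ((univ.erase u).erase v).erase w, ⟨v, by simp⟩, hz, ?_, ?_, ?_⟩
      · rw [disjoint_left]
        intro x hx hx'
        simp only [mem_insert, mem_singleton] at hx
        simp only [mem_erase, mem_univ, and_true] at hx'
        rcases hx with rfl | rfl
        · exact hx'.2.1 rfl
        · exact hx'.1 rfl
      · ext x
        simp only [mem_union, mem_insert, mem_singleton, mem_erase, mem_univ, and_true]
        constructor
        · rintro ((rfl | rfl) | h)
          · exact huv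
          · exact hwu
          · exact h.2.2
        · intro h
          by_cases hx : x = v
          · exact Or.inl (Or.inl hx)
          · by_cases hx' : x = w
            · exact Or.inl (Or.inr hx')
            · exact Or.inr ⟨hx', hx, h⟩
      · intro x hx y hy hxy
        simp only [mem_insert, mem_singleton] at hx
        simp only [mem_erase, mem_univ, and_true] at hy
        rcases hx with rfl | rfl
        · exact hB y hy.2.2 hy.1 hxy
        · exact hcon y hy.2.2 hy.2.1 hy.1 hxy
    -- a path from `y` to `u` which avoids `v` and `w`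
    have hU : ¬ Disc ((univ.erase w).erase v) E := by
      rintro ⟨C, D, hC, hD, hCD, hun, hno⟩
      have huU : u ∈ C ∪ D := by
        rw [hun]
        simp [Ne.symm huv, Ne.symm hwu]
      have hvn : v ∉ C ∪ D := by
        rw [hun]
        simp
      have hwn : w ∉ C ∪ D := by
        rw [hun]
        simp
      have main : ∀ C D : Finset V, C.Nonempty → D.Nonempty → Disjoint C D →
          C ∪ D = (univ.erase w).erase v → (∀ x ∈ C, ∀ y ∈ D, s(x, y) ∉ E) → u ∈ C → False := by
        intro C D hC hD hCD hun hno huC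
        have hvD : v ∉ D := fun h => by
          have : v ∈ C ∪ D := mem_union_right _ h
          rw [hun] at this
          simp at this
        refine hcut w ⟨insert v C, D, ⟨v, mem_insert_self _ _⟩, hD, ?_, ?_, ?_⟩
        · rw [disjoint_insert_left]
          exact ⟨hvD, hCD⟩
        · rw [insert_union, hun, insert_erase]
          simp [hwv]
        · intro x hx z hz hxz
          rcases mem_insert.1 hx with rfl | hx
          · have hz1 : z ∈ C ∪ D := mem_union_right _ hz
            rw [hun] at hz1
            simp only [mem_erase, mem_univ, and_true] at hz1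
            refine hB z (fun e => ?_) hz1.2 hxz
            subst e
            exact (disjoint_left.1 hCD) huC hz
          · exact hno x hx z hz hxz
      rcases mem_union.1 huU with h | h
      · exact main C D hC hD hCD hun hno h
      · exact main D C hD hC hCD.symm (by rw [union_comm]; exact hun)
          (fun x hx y hy hxy => hno y hy x hx (sw hxy)) h
    obtain ⟨p, hp, hpU⟩ := path_of_not_disc hU (b := y) (d := u)
      (by simp [hyv, hyw]) (by simp [Ne.symm huv, Ne.symm hwu])
    refine close4 hE hu hw hy (Ne.symm hwu) hyu hyv p hp fun r hr => ?_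
    have := hpU r hr
    simp only [mem_erase, mem_univ, and_true] at this
    exact this

end H50TF
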